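import Pool.Agent.Q269.DX.LD.Stm

/-!
# Project LD: almost all colourings of a regular block satisfy the conditions
-/

set_option autoImplicit false

namespace Pool.Agent.Q269.DX.A223

open Pool.Agent.Q269.DX.Bs (ze ze_add)

open Finset
open scoped Classical

theorem col_sum {ι Cc : Type} [Fintype ι] [Fintype Cc] (S : Finset ι) (c : Cc) (y : ℝ) :
    ∑ col : ι → Cc, y ^ (univ.filter fun i => i ∈ S ∧ col i = c).card =
      ((Fintype.card Cc : ℝ) - 1 + y) ^ S.card * (Fintype.card Cc : ℝ) ^ (Fintype.card ι - S.card) := by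
  classical
  have h1 : ∀ col : ι → Cc, y ^ (univ.filter fun i => i ∈ S ∧ col i = c).card =
      ∏ i, (if i ∈ S ∧ col i = c then y else 1) := by
    intro col
    rw [Finset.prod_ite]
    simp
  have h2 : ∑ col : ι → Cc, ∏ i, (if i ∈ S ∧ col i = c then y else 1) =
      ∏ i : ι, ∑ x : Cc, (if i ∈ S ∧ x = c then y else 1) := by
    rw [Finset.prod_univ_sum]
    simp [Fintype.piFinset_univ]
  have h3 : ∀ i : ι, ∑ x : Cc, (if i ∈ S ∧ x = c then y else 1) =
      if i ∈ S then ((Fintype.card Cc : ℝ) - 1 + y) else (Fintype.card Cc : ℝ) := by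
    intro i
    by_cases hi : i ∈ S
    · simp only [hi, true_and, if_true]
      rw [Finset.sum_ite, Finset.sum_const, Finset.sum_const]
      have h4 : (univ.filter fun x : Cc => x = c).card = 1 := by
        rw [Finset.filter_eq' univ c]; simp
      have h5 : (univ.filter fun x : Cc => ¬ x = c).card + 1 = Fintype.card Cc := by
        have := Finset.card_filter_add_card_filter_not (s := (univ : Finset Cc)) (fun x => x = c)
        rw [h4] at this
        rw [Finset.card_univ] at this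
        omega
      rw [h4]
      have h6 : ((univ.filter fun x : Cc => ¬ x = c).card : ℝ) + 1 = Fintype.card Cc := by
        exact_mod_cast h5
      simp only [nsmul_eq_mul, Nat.cast_one, one_mul, mul_one]
      linarith
    · simp [hi]
  rw [Finset.sum_congr rfl (fun col _ => h1 col), h2, Finset.prod_congr rfl (fun i _ => h3 i),
    Finset.prod_ite, Finset.prod_const, Finset.prod_const]
  congr 2
  · congr 1
    ext i; simp
  · have : (univ.filter fun i : ι => ¬ i ∈ S) = Sᶜ := by ext i; simp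
    rw [this, Finset.card_compl]

/-- few colourings have less than `k` elements of `S` with colour `c` -/
theorem col_le {ι Cc : Type} [Fintype ι] [Fintype Cc] (S : Finset ι) (c : Cc) (k : ℕ) :
    ((univ.filter fun col : ι → Cc => (univ.filter fun i => i ∈ S ∧ col i = c).card < k).card : ℝ) ≤
      2 ^ k * (1 - 1 / (2 * (Fintype.card Cc : ℝ))) ^ S.card *
        (Fintype.card Cc : ℝ) ^ Fintype.card ι := by
  have hc : (0 : ℝ) < Fintype.card Cc := by
    have : 0 < Fintype.card Cc := Fintype.card_pos_iff.2 ⟨c⟩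
    exact_mod_cast this
  have h1 := col_sum S c (1 / 2 : ℝ)
  have h2 : ((Fintype.card Cc : ℝ) - 1 + 1 / 2) ^ S.card *
      (Fintype.card Cc : ℝ) ^ (Fintype.card ι - S.card) =
      (1 - 1 / (2 * (Fintype.card Cc : ℝ))) ^ S.card * (Fintype.card Cc : ℝ) ^ Fintype.card ι := by
    have hS : S.card ≤ Fintype.card ι := Finset.card_le_univ S
    have h3 : (Fintype.card Cc : ℝ) ^ Fintype.card ι =
        (Fintype.card Cc : ℝ) ^ S.card * (Fintype.card Cc : ℝ) ^ (Fintype.card ι - S.card) := by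
      rw [← pow_add]; congr 1; omega
    rw [h3, ← mul_assoc, ← mul_pow]
    congr 2
    field_simp
    ring
  rw [h2] at h1
  have h4 : ((univ.filter fun col : ι → Cc =>
      (univ.filter fun i => i ∈ S ∧ col i = c).card < k).card : ℝ) * (1 / 2 : ℝ) ^ k ≤
      ∑ col : ι → Cc, (1 / 2 : ℝ) ^ (univ.filter fun i => i ∈ S ∧ col i = c).card := by
    rw [← nsmul_eq_mul, ← Finset.sum_const]
    refine le_trans (Finset.sum_le_sum ?_) (Finset.sum_le_sum_of_subset_of_nonneg
      (Finset.filter_subset _ _) (fun _ _ _ => by positivity))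
    intro col hcol
    rw [Finset.mem_filter] at hcol
    exact pow_le_pow_of_le_one (by norm_num) (by norm_num) hcol.2.le
  rw [h1] at h4
  have h5 : (0 : ℝ) < 2 ^ k := by positivity
  calc ((univ.filter fun col : ι → Cc =>
      (univ.filter fun i => i ∈ S ∧ col i = c).card < k).card : ℝ) =
      2 ^ k * (((univ.filter fun col : ι → Cc =>
      (univ.filter fun i => i ∈ S ∧ col i = c).card < k).card : ℝ) * (1 / 2 : ℝ) ^ k) := by
        rw [one_div, inv_pow]; field_simp
    _ ≤ 2 ^ k * ((1 - 1 / (2 * (Fintype.card Cc : ℝ))) ^ S.card *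
        (Fintype.card Cc : ℝ) ^ Fintype.card ι) := by gcongr
    _ = _ := by ring

open Pool.Agent.Q269.DX.LD Pool.Agent.Q269.DX.JQ

theorem t_COL : S_COL := by
  intro s Cc _ _ _ t₀ R' δ hδ
  have hC1 : 1 ≤ Fintype.card Cc := Fintype.card_pos
  have hC : (1 : ℝ) ≤ Fintype.card Cc := by exact_mod_cast hC1
  obtain ⟨q, hq⟩ : ∃ q : ℝ, q = 1 - 1 / (2 * (Fintype.card Cc : ℝ)) := ⟨_, rfl⟩
  have hpos : 0 < 1 / (2 * (Fintype.card Cc : ℝ)) := by positivity
  have hle : 1 / (2 * (Fintype.card Cc : ℝ)) ≤ 1 := by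
    rw [div_le_one (by positivity)]; linarith
  have hq0 : 0 ≤ q := by rw [hq]; linarith
  have hq1 : q < 1 := by rw [hq]; linarith
  obtain ⟨A, hA⟩ : ∃ A : ℕ, 2 ^ (R' + 1) * q ^ A ≤ 1 := by
    obtain ⟨A, hA⟩ := exists_pow_lt_of_lt_one (y := q) (x := 1 / (2 : ℝ) ^ (R' + 1))
      (by positivity) hq1
    refine ⟨A, ?_⟩
    rw [lt_div_iff₀ (by positivity)] at hA
    linarith [mul_comm (q ^ A) ((2 : ℝ) ^ (R' + 1))]
  obtain ⟨K, hK⟩ : ∃ K : ℝ, K = (Fintype.card Cc : ℝ) * 2 +
      (Fintype.card Cc : ℝ) * 2 ^ Fintype.card s * 2 ^ R' := ⟨_, rfl⟩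
  have hK0 : 0 < K := by rw [hK]; positivity
  obtain ⟨R, hR⟩ : ∃ R : ℕ, K * q ^ R ≤ δ := by
    obtain ⟨R, hR⟩ := exists_pow_lt_of_lt_one (y := q) (x := δ / K) (by positivity) hq1
    refine ⟨R, ?_⟩
    rw [lt_div_iff₀ hK0] at hR
    linarith [mul_comm (q ^ R) K]
  refine ⟨A, R, ?_⟩
  intro U ι _ _ b hb
  obtain ⟨n, hn⟩ : ∃ n, n = Fintype.card U := ⟨_, rfl⟩
  obtain ⟨S1, hS1⟩ : ∃ S1 : (U → ZMod 2) → Finset ι, S1 = fun μ =>
      univ.filter fun i => b.hJ i = 0 ∧ ∑ u, μ u * b.C i u ≠ 0 := ⟨_, rfl⟩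
  obtain ⟨S2, hS2⟩ : ∃ S2 : (s → ZMod 2) → Finset ι, S2 = fun φ =>
      univ.filter fun i => b.hJ i = φ := ⟨_, rfl⟩
  have hsub : (univ.filter fun col : ι → Cc => ¬ POk b col t₀ R') ⊆
      ((univ : Finset (Cc × {μ : U → ZMod 2 // μ ≠ 0})).biUnion fun x =>
        univ.filter fun col : ι → Cc =>
          (univ.filter fun i => i ∈ S1 x.2.1 ∧ col i = x.1).card < 1) ∪
      ((univ : Finset (Cc × (s → ZMod 2))).biUnion fun x =>
        univ.filter fun col : ι → Cc =>
          (univ.filter fun i => i ∈ S2 x.2 ∧ col i = x.1).card < R' * (n + 1)) := by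
    intro col hcol
    rw [Finset.mem_filter] at hcol
    by_contra hno
    rw [Finset.mem_union, not_or] at hno
    obtain ⟨h1, h2⟩ := hno
    apply hcol.2
    refine ⟨hb.rU, hb.rJ, ?_, ?_⟩
    · intro c μ hμ
      by_contra h3
      apply h1
      rw [Finset.mem_biUnion]
      refine ⟨(c, ⟨μ, hμ⟩), Finset.mem_univ _, ?_⟩
      rw [Finset.mem_filter]
      refine ⟨Finset.mem_univ _, ?_⟩
      rw [Nat.lt_one_iff, Finset.card_eq_zero, Finset.filter_eq_empty_iff]
      rintro i - ⟨hi1, hi2⟩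
      apply h3
      rw [hS1] at hi1
      simp only [Finset.mem_filter, Finset.mem_univ, true_and] at hi1
      exact ⟨i, hi2, hi1.1, hi1.2⟩
    · intro c φ
      by_contra h3
      push Not at h3
      apply h2
      rw [Finset.mem_biUnion]
      refine ⟨(c, φ), Finset.mem_univ _, ?_⟩
      rw [Finset.mem_filter]
      refine ⟨Finset.mem_univ _, ?_⟩
      rw [hn]
      refine lt_of_le_of_lt (le_of_eq ?_) h3
      congr 1
      ext i
      rw [hS2]
      simp only [Finset.mem_filter, Finset.mem_univ, true_and]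
      tauto
  have hcard : (Nat.card {col : ι → Cc // ¬ POk b col t₀ R'} : ℝ) =
      ((univ.filter fun col : ι → Cc => ¬ POk b col t₀ R').card : ℝ) := by
    rw [Nat.card_eq_fintype_card, Fintype.card_subtype]
  have hW : (0 : ℝ) ≤ (Fintype.card Cc : ℝ) ^ Fintype.card ι := by positivity
  have e1 : ∀ x : Cc × {μ : U → ZMod 2 // μ ≠ 0}, ((univ.filter fun col : ι → Cc =>
      (univ.filter fun i => i ∈ S1 x.2.1 ∧ col i = x.1).card < 1).card : ℝ) ≤
      2 * q ^ (A * n + R) * (Fintype.card Cc : ℝ) ^ Fintype.card ι := by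
    intro x
    refine (col_le (S1 x.2.1) x.1 1).trans ?_
    rw [← hq, pow_one]
    have h5 : A * n + R ≤ (S1 x.2.1).card := by
      rw [hS1, hn]; exact hb.nd x.2.1 x.2.2
    have h6 : q ^ (S1 x.2.1).card ≤ q ^ (A * n + R) := pow_le_pow_of_le_one hq0 hq1.le h5
    gcongr
  have e2 : ∀ x : Cc × (s → ZMod 2), ((univ.filter fun col : ι → Cc =>
      (univ.filter fun i => i ∈ S2 x.2 ∧ col i = x.1).card < R' * (n + 1)).card : ℝ) ≤
      2 ^ (R' * (n + 1)) * q ^ (A * n + R) * (Fintype.card Cc : ℝ) ^ Fintype.card ι := by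
    intro x
    refine (col_le (S2 x.2) x.1 (R' * (n + 1))).trans ?_
    rw [← hq]
    have h5 : A * n + R ≤ (S2 x.2).card := by
      rw [hS2, hn]; exact hb.many x.2
    have h6 : q ^ (S2 x.2).card ≤ q ^ (A * n + R) := pow_le_pow_of_le_one hq0 hq1.le h5
    gcongr
  have c1 : (Fintype.card (Cc × {μ : U → ZMod 2 // μ ≠ 0}) : ℝ) ≤
      (Fintype.card Cc : ℝ) * 2 ^ n := by
    rw [Fintype.card_prod, Nat.cast_mul]
    have : Fintype.card {μ : U → ZMod 2 // μ ≠ 0} ≤ 2 ^ n := by
      refine (Fintype.card_subtype_le _).trans ?_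
      rw [Fintype.card_fun, ZMod.card, hn]
    have h7 : (Fintype.card {μ : U → ZMod 2 // μ ≠ 0} : ℝ) ≤ 2 ^ n := by exact_mod_cast this
    gcongr
  have c2 : (Fintype.card (Cc × (s → ZMod 2)) : ℝ) =
      (Fintype.card Cc : ℝ) * 2 ^ Fintype.card s := by
    rw [Fintype.card_prod, Fintype.card_fun, ZMod.card]
    push_cast
    ring
  have b1 : ((((univ : Finset (Cc × {μ : U → ZMod 2 // μ ≠ 0})).biUnion fun x =>
        univ.filter fun col : ι → Cc =>
          (univ.filter fun i => i ∈ S1 x.2.1 ∧ col i = x.1).card < 1).card : ℕ) : ℝ) ≤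
      ((Fintype.card Cc : ℝ) * 2 ^ n) *
        (2 * q ^ (A * n + R) * (Fintype.card Cc : ℝ) ^ Fintype.card ι) := by
    refine (Nat.cast_le.2 Finset.card_biUnion_le).trans ?_
    rw [Nat.cast_sum]
    refine (Finset.sum_le_sum fun x _ => e1 x).trans ?_
    rw [Finset.sum_const, nsmul_eq_mul, Finset.card_univ]
    gcongr
  have b2 : ((((univ : Finset (Cc × (s → ZMod 2))).biUnion fun x =>
        univ.filter fun col : ι → Cc =>
          (univ.filter fun i => i ∈ S2 x.2 ∧ col i = x.1).card < R' * (n + 1)).card : ℕ) : ℝ) ≤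
      ((Fintype.card Cc : ℝ) * 2 ^ Fintype.card s) *
        (2 ^ (R' * (n + 1)) * q ^ (A * n + R) * (Fintype.card Cc : ℝ) ^ Fintype.card ι) := by
    refine (Nat.cast_le.2 Finset.card_biUnion_le).trans ?_
    rw [Nat.cast_sum]
    refine (Finset.sum_le_sum fun x _ => e2 x).trans ?_
    rw [Finset.sum_const, nsmul_eq_mul, Finset.card_univ, c2]
  have hqA : 0 ≤ q ^ A := by positivity
  have f1 : (2 : ℝ) ^ n * q ^ (A * n) ≤ 1 := by
    rw [pow_mul, ← mul_pow]
    apply pow_le_one₀ (by positivity)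
    refine le_trans ?_ hA
    have : (2 : ℝ) ^ 1 ≤ 2 ^ (R' + 1) := pow_le_pow_right₀ (by norm_num) (by omega)
    rw [pow_one] at this
    gcongr
  have f2 : ((2 : ℝ) ^ R') ^ n * q ^ (A * n) ≤ 1 := by
    rw [pow_mul, ← mul_pow]
    apply pow_le_one₀ (by positivity)
    refine le_trans ?_ hA
    have : (2 : ℝ) ^ R' ≤ 2 ^ (R' + 1) := pow_le_pow_right₀ (by norm_num) (by omega)
    gcongr
  rw [hcard]
  calc ((univ.filter fun col : ι → Cc => ¬ POk b col t₀ R').card : ℝ) ≤ _ :=
        Nat.cast_le.2 (Finset.card_le_card hsub)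
    _ ≤ _ := Nat.cast_le.2 (Finset.card_union_le _ _)
    _ ≤ ((Fintype.card Cc : ℝ) * 2 ^ n) *
        (2 * q ^ (A * n + R) * (Fintype.card Cc : ℝ) ^ Fintype.card ι) +
        ((Fintype.card Cc : ℝ) * 2 ^ Fintype.card s) *
        (2 ^ (R' * (n + 1)) * q ^ (A * n + R) * (Fintype.card Cc : ℝ) ^ Fintype.card ι) := by
        rw [Nat.cast_add]; exact add_le_add b1 b2
    _ = ((Fintype.card Cc : ℝ) * 2 * ((2 : ℝ) ^ n * q ^ (A * n)) +
        (Fintype.card Cc : ℝ) * 2 ^ Fintype.card s * 2 ^ R' *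
          (((2 : ℝ) ^ R') ^ n * q ^ (A * n))) * q ^ R *
          (Fintype.card Cc : ℝ) ^ Fintype.card ι := by
        rw [pow_add, mul_add, pow_add, mul_one, pow_mul (2 : ℝ) R' n]; ring
    _ ≤ ((Fintype.card Cc : ℝ) * 2 * 1 +
        (Fintype.card Cc : ℝ) * 2 ^ Fintype.card s * 2 ^ R' * 1) * q ^ R *
          (Fintype.card Cc : ℝ) ^ Fintype.card ι := by
        gcongr
    _ = K * q ^ R * (Fintype.card Cc : ℝ) ^ Fintype.card ι := by rw [hK]; ring
    _ ≤ δ * (Fintype.card Cc : ℝ) ^ Fintype.card ι := by gcongr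

end Pool.Agent.Q269.DX.A223
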